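import Mathlib
import Pool.Agent.J4.H38.SR3.Fx

/-! Project CH, piece FRS: `few_R` with an additional factor `σ ≥ 1`. -/

set_option autoImplicit false

namespace Pool.Agent.J4.H31.CH

open Finset Filter
open Pool.Agent.Y822
open Pool.Agent.J4.H38.SR
open Pool.Agent.J4.H38.SR2
open Pool.Agent.J4.H38.SR3

/-- **few sets of shifts are not good** -/
theorem few_S (k t0 : ℕ) {δ ε' κm Cv : ℝ} (hδ : 0 < δ) (hε : 0 < ε') (hκm : 0 < κm) (hCv : 0 < Cv) :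
    ∃ κ Λ : ℝ, 0 < κ ∧ κ ≤ κm ∧ κ ≤ 1 / 25 ∧ 0 < Λ ∧ ∀ᶠ N : ℕ in atTop,
      ∀ y : ℕ, (y : ℝ) < (N : ℝ) ^ κ → (N : ℝ) ^ κ ≤ y + 1 →
      ∀ A T0 X0 : Finset ℕ, T0.card = t0 → T0.Nonempty → X0.card ≤ y → Disjoint T0 A →
      (∀ a ∈ A, (a : ℝ) ≤ N - (N : ℝ) ^ (1 / 2 : ℝ)) → (∀ a ∈ A ∪ T0, ∀ t ∈ A ∪ T0, Even (a + t)) →
      ∀ e : ℕ → ℝ, (∀ n, 0 ≤ e n ∧ e n ≤ 1) → (∀ n ∈ Icc 1 N, n ∉ X0 → e n ≤ rT T0 y n) →
      ∀ g : ℕ → ℝ, (∀ n, 0 ≤ g n ∧ g n ≤ ro y n) →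
      ∀ H : ℕ, Λ * Real.log N ≤ H → A.card ≤ H → ∀ σ : ℝ, 1 ≤ σ →
      (∀ j ≤ k + 2, ∑ S ∈ A.powersetCard j, VT y (T0 ∪ S) ≤
        Cv * σ * (2 / κ) ^ (j + t0) * ((H : ℝ) ^ j / Real.log N ^ (j + t0))) →
      ∀ Bad : Finset (Finset ℕ),
        (∀ D' ∈ Bad, D' ∈ A.powersetCard (k + 1) ∧
          ¬ Good e g (ro y) (LF y (FR N κ) N) (δ * σ * (N / Real.log N ^ (k + t0 + 1))) D') →
        (Bad.card : ℝ) ≤ ε' * (H : ℝ) ^ (k + 1) := by
  classical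
  obtain ⟨ε₀, η, hε₀, hε₀1, hη, hη1, J, HW⟩ := windows
  obtain ⟨cE, hcE, hEE⟩ := EE_coreY
  obtain ⟨C0, K0, hC0, hK0, hcnt⟩ := cntT (t0 + k + 2)
  obtain ⟨C1, K1, hC1, hK1, hflh⟩ := flh (t0 + k + 2)
  obtain ⟨Cm, hCm⟩ : ∃ Cm : ℕ, Cm = max C0 C1 := ⟨_, rfl⟩
  have hCm0 : C0 ≤ Cm := hCm ▸ le_max_left _ _
  have hCm1 : C1 ≤ Cm := hCm ▸ le_max_right _ _
  obtain ⟨Jc, hJc⟩ : ∃ Jc : ℝ, Jc = (J.card : ℝ) + 1 := ⟨_, rfl⟩
  have hJc0 : 0 < Jc := by rw [hJc]; positivity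
  have hJcc : (J.card : ℝ) ≤ Jc := by rw [hJc]; linarith
  obtain ⟨δ1, hδ1⟩ : ∃ δ1 : ℝ, δ1 = δ / Jc := ⟨_, rfl⟩
  obtain ⟨ε1, hε1⟩ : ∃ ε1 : ℝ, ε1 = ε' / Jc := ⟨_, rfl⟩
  have hδ10 : 0 < δ1 := by rw [hδ1]; positivity
  have hε10 : 0 < ε1 := by rw [hε1]; positivity
  obtain ⟨xs, hxsd⟩ : ∃ xs : ℝ, xs = min ε₀ η / 2 := ⟨_, rfl⟩
  have hxs : 0 < xs := by rw [hxsd]; have := lt_min hε₀ hη; linarith
  have hxsε : xs ≤ ε₀ / 2 := by rw [hxsd]; have := min_le_left ε₀ η; linarith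
  have hxsη : xs ≤ η / 2 := by rw [hxsd]; have := min_le_right ε₀ η; linarith
  set τ : ℝ := (ε1 * δ1 / 2 ^ (k + 1)) ^ 2 with hτ
  have hτ0 : 0 < τ := by positivity
  set Cst : ℝ := (2 * Cv + 1) * 4 * cE ^ 6 * ((k + 1) * (k + 2)) * Cv * 2 ^ (2 * k + 2 * t0 + 2) with hCst
  have hCst0 : 0 < Cst := by positivity
  obtain ⟨b, hbB, hb1, hb2⟩ := exists_b Cm (hC0.trans hCm0) Cm (2 * k + 2 * t0 + 8) hCst0 hxs
    (by positivity : 0 < τ / 300) (lt_min hκm (by norm_num : (0 : ℝ) < 1 / 25))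
  obtain ⟨κ, hκd⟩ : ∃ κ : ℝ, κ = xs / (4 * Cm * b + 1) := ⟨_, rfl⟩
  rw [← hκd] at hb2
  have hκ : 0 < κ := by rw [hκd]; positivity
  have hκm' : κ ≤ κm := hb2.trans (min_le_left _ _)
  have hκ25 : κ ≤ 1 / 25 := hb2.trans (min_le_right _ _)
  have hκ1 : κ ≤ 1 := by linarith
  have hκinv : (4 * (Cm : ℝ) * b + 1) / xs = 1 / κ := by rw [hκd]; field_simp
  have hκσ : κ * (4 * Cm * b + 1) ≤ xs := by
    rw [hκd]
    field_simp
    exact le_rfl
  have hb0 : (0 : ℝ) ≤ b := Nat.cast_nonneg _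
  have hκσ0 : κ * (4 * C0 * b + 1) ≤ xs := by
    refine le_trans ?_ hκσ
    have h1 : (C0 : ℝ) ≤ Cm := by exact_mod_cast hCm0
    gcongr
  have hκσ1 : κ * (4 * C1 * b + 1) ≤ xs := by
    refine le_trans ?_ hκσ
    have h1 : (C1 : ℝ) ≤ Cm := by exact_mod_cast hCm1
    gcongr
  rw [hκinv] at hb1
  obtain ⟨C, N₀, hC, HWκ⟩ := HW κ hκ hκ25
  obtain ⟨CD, N₁, hCD, HD⟩ := diagW κ hκ
  set M1 : ℕ := ⌈2 * ((2 : ℕ) : ℝ) / κ⌉₊ with hM1
  set Es : ℝ := (cE / κ) ^ 3 with hEs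
  have hEs0 : 0 < Es := by positivity
  set A1 : ℝ := 2 * (Cv * (2 / κ) ^ (k + t0)) + 1 with hA1
  have hA10 : 0 < A1 := by positivity
  set A2 : ℝ := (25 * CD) * (2 * ((k + 1) * (Cv * (2 / κ) ^ (k + 1 + t0))) + 1) with hA2
  have hA20 : 0 < A2 := by positivity
  set η0 : ℝ := τ / (3 * A1) with hη0
  have hη00 : 0 < η0 := by positivity
  set e2 : ℝ := 400 * Es ^ 2 * (1 / 2) ^ b with he2
  have he20 : 0 < e2 := by positivity
  set η1 : ℝ := e2 * ((k + 1) * ((k + 2) * (Cv * (2 / κ) ^ (k + 2 + t0)))) with hη1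
  have hη10 : 0 < η1 := by positivity
  set Λ : ℝ := 3 * A1 * A2 / τ with hΛ
  have hΛ0 : 0 < Λ := by positivity
  have hAη : A1 * η1 ≤ τ / 3 := by
    have h2κ : 1 ≤ (2 / κ) ^ (k + t0) := by
      refine one_le_pow₀ ?_
      rw [le_div_iff₀ hκ]
      linarith
    have h1 : A1 ≤ (2 * Cv + 1) * (2 / κ) ^ (k + t0) := by
      rw [hA1]
      linarith
    calc A1 * η1 ≤ ((2 * Cv + 1) * (2 / κ) ^ (k + t0)) * η1 := mul_le_mul_of_nonneg_right h1 hη10.le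
      _ = 100 * (((2 * Cv + 1) * (2 / κ) ^ (k + t0)) *
          (4 * ((cE / κ) ^ 3) ^ 2 * (1 / 2) ^ b * ((k + 1) * ((k + 2) * (Cv * (2 / κ) ^ (k + 2 + t0)))))) := by
          rw [hη1, he2, hEs]
          ring
      _ = 100 * (Cst * (1 / κ) ^ (2 * k + 2 * t0 + 8) * (1 / 2) ^ b) := by
          rw [hCst, alg_const2 k t0 b hκ.ne']
      _ ≤ 100 * (τ / 300) := mul_le_mul_of_nonneg_left hb1 (by norm_num)
      _ = τ / 3 := by ring
  have hAtot : A1 * (A2 / Λ + η1 + η0) ≤ τ := by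
    have e1 : A1 * (A2 / Λ) = τ / 3 := by rw [hΛ]; field_simp
    have e3 : A1 * η0 = τ / 3 := by rw [hη0]; field_simp
    calc A1 * (A2 / Λ + η1 + η0) = A1 * (A2 / Λ) + A1 * η1 + A1 * η0 := by ring
      _ ≤ τ / 3 + τ / 3 + τ / 3 := by rw [e1, e3]; linarith
      _ = τ := by ring
  refine ⟨κ, Λ, hκ, hκm', hκ25, hΛ0, ?_⟩
  have hxs' : 0 < 1 - xs := by linarith
  have hκ' : 0 < 1 - κ := by linarith
  have hηx : 0 < η - xs := by linarith
  have hκ4 : 0 < κ / 4 := by linarith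
  have hK1ev : ∀ᶠ N : ℕ in atTop, (K1 : ℝ) ≤ Real.exp (ε₀ / 2 * Real.log N) := by
    have h1 : Tendsto (fun N : ℕ => ε₀ / 2 * Real.log N) atTop atTop :=
      (Real.tendsto_log_atTop.comp tendsto_natCast_atTop_atTop).const_mul_atTop (by linarith)
    exact (Real.tendsto_exp_atTop.comp h1).eventually_ge_atTop _
  filter_upwards [ev_logN (eventually_ge_atTop (1 : ℝ)), eventually_ge_atTop (max 4 (max N₀ N₁)),
    ev_logN (eventually_ge_atTop (5 * (2 / κ))),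
    ev_small (k + t0) hxs' (2 + 2 * K0) one_pos, ev_small (k + t0 + 1) hxs' (2 + 2 * K1) one_pos,
    ev_small (k + t0 + 1) hκ' (4 ^ M1 + Es) (by positivity : 0 < δ1 / 2),
    ev_small (k + t0 + 2) hηx (25 * ((2 + 2 * K1) * C)) (by positivity : 0 < η0 / 2),
    ev_small (k + t0 + 2) hκ4 (25 * C) (by positivity : 0 < η0 / 2), hK1ev]
    with N hL1 hNm hL5 hs1 hs2 hs3 hs4 hs5 hK1N
  intro y hya' hyb' A T0 X0 hT0c hT0 hX0 hdis hAN hpar e he heT g hg H hH1 hAH σ hσ hVT Bad hBad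
  have hσ0 : 0 < σ := by linarith
  have hN4 : 4 ≤ N := (le_max_left _ _).trans hNm
  have hNN₀ : N₀ ≤ N := ((le_max_left _ _).trans (le_max_right _ _)).trans hNm
  have hNN₁ : N₁ ≤ N := ((le_max_right _ _).trans (le_max_right _ _)).trans hNm
  have hNκ := pow_exp (N := N) (by omega) κ
  have hya : (y : ℝ) ≤ Real.exp (κ * Real.log N) := by rw [← hNκ]; exact hya'.le
  have hyb : Real.exp (κ * Real.log N) ≤ y + 1 := by rw [← hNκ]; exact hyb'
  have h5κ : 5 ≤ κ / 2 * Real.log N := by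
    have h1 : (5 : ℝ) = κ / 2 * (5 * (2 / κ)) := by field_simp
    rw [h1]
    exact mul_le_mul_of_nonneg_left hL5 (by positivity)
  obtain ⟨y1, y1', y2, y3, y4, y5⟩ := y_core (M := 2) hκ (by omega : 1 ≤ N) (by push_cast; linarith)
    hya hyb
  have hAd := Ad_coreY C0 K0 b hκ (by omega : 1 ≤ N) hya hyb h5κ hκσ0
  have hEr := Ad_coreY C1 K1 b hκ (by omega : 1 ≤ N) hya hyb h5κ hκσ1
  have hErA : Er C1 K1 b y = Ad C1 K1 b y := rfl
  rw [← hErA] at hEr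
  set L := Real.log N with hLd
  have hL0 : 0 < L := by linarith
  have hN0 : (0 : ℝ) < N := by exact_mod_cast (by omega : 0 < N)
  have hNe : (N : ℝ) = Real.exp L := by rw [hLd, Real.exp_log hN0]
  have hy0 : (0 : ℝ) < y := by exact_mod_cast (by omega : 0 < y)
  have hEED : EE y N ≤ Es := hEE κ hκ hκ1 N (by omega) (by linarith) y hya hyb N le_rfl
  have hEE0 := (EE_pos y N).le
  have hEr0 := Er_nonneg C1 K1 b y
  have hlM : Nat.log y (2 * N) ≤ M1 := log_le_B hκ (by omega : 1 ≤ N) hL0 y1' (by nlinarith)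
  have hbB0 : C0 ≤ b := hCm0.trans hbB
  have hbB1 : C1 ≤ b := hCm1.trans hbB
  -- the trivial bound
  obtain ⟨δ2, hδ2⟩ : ∃ δ2 : ℝ, δ2 = δ1 * σ := ⟨_, rfl⟩
  have hδ20 : 0 < δ2 := by rw [hδ2]; positivity
  have hδ12 : δ1 ≤ δ2 := by rw [hδ2]; exact le_mul_of_one_le_right hδ10.le hσ
  have hx0 : 0 < δ2 * ((N : ℝ) / L ^ (k + t0 + 1)) := by positivity
  have hyM : (y : ℝ) * (4 ^ Nat.log y (2 * N) + EE y N) ≤ δ2 * (N / L ^ (k + t0 + 1)) / 2 := by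
    have : (1 - (1 - κ)) = κ := by ring
    rw [this] at hs3
    have h4M : (4 : ℝ) ^ Nat.log y (2 * N) ≤ 4 ^ M1 := pow_le_pow_right₀ (by norm_num) hlM
    calc (y : ℝ) * (4 ^ Nat.log y (2 * N) + EE y N) ≤ Real.exp (κ * L) * (4 ^ M1 + Es) := by
          gcongr
      _ = (4 ^ M1 + Es) * Real.exp (κ * L) := mul_comm _ _
      _ ≤ δ1 / 2 * (N / L ^ (k + t0 + 1)) := hs3
      _ ≤ δ2 / 2 * (N / L ^ (k + t0 + 1)) :=
          mul_le_mul_of_nonneg_right (by linarith) (by positivity)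
      _ = _ := by ring
  have hKN : ((K1 * y ^ (2 * (C1 * b)) : ℕ) : ℝ) ≤ (N : ℝ) ^ ε₀ := by
    push_cast
    rw [pow_exp (by omega)]
    calc (K1 : ℝ) * (y : ℝ) ^ (2 * (C1 * b)) ≤
          Real.exp (ε₀ / 2 * L) * (Real.exp (κ * L)) ^ (2 * (C1 * b)) := by gcongr
      _ = Real.exp (ε₀ / 2 * L + ((2 * (C1 * b) : ℕ) : ℝ) * (κ * L)) := by
          rw [← Real.exp_nat_mul, ← Real.exp_add]
      _ ≤ Real.exp (ε₀ * L) := by
          refine Real.exp_le_exp.2 ?_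
          have h1 : ((2 * (C1 * b) : ℕ) : ℝ) * κ ≤ ε₀ / 2 := by
            push_cast
            have h2 : (0 : ℝ) ≤ C1 * b * κ := by positivity
            linarith
          have h3 : ((2 * (C1 * b) : ℕ) : ℝ) * (κ * L) ≤ ε₀ / 2 * L := by
            rw [← mul_assoc]
            exact mul_le_mul_of_nonneg_right h1 hL0.le
          linarith
  obtain ⟨W, hW1, hW2, hW3⟩ := HWκ N hNN₀
  have hErN : Er C1 K1 b y ≤ N / L ^ (k + t0 + 1) := by
    have : (1 - (1 - xs)) = xs := by ring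
    rw [this, one_mul] at hs2
    linarith
  have hPE : (2 + 2 * (K0 : ℝ)) * Real.exp (xs * L) ≤ N / L ^ (k + t0) := by
    have : (1 - (1 - xs)) = xs := by ring
    rw [this, one_mul] at hs1
    exact hs1
  set E1 : ℝ := C * (N : ℝ) ^ (1 - η) with hE1
  set E2 : ℝ := C * (N : ℝ) ^ (1 - κ / 4) with hE2
  have hE10 : 0 ≤ E1 := by positivity
  have hE20 : 0 ≤ E2 := by positivity
  have hsm : 25 * (Er C1 K1 b y * E1 + E2) ≤ η0 * (N / L ^ (k + t0 + 2)) := by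
    have h1 : Er C1 K1 b y * E1 ≤ (2 + 2 * K1) * C * Real.exp ((1 - (η - xs)) * L) := by
      calc Er C1 K1 b y * E1 ≤ ((2 + 2 * K1) * Real.exp (xs * L)) * E1 :=
            mul_le_mul_of_nonneg_right (by linarith) hE10
        _ = (2 + 2 * K1) * C * (Real.exp (xs * L) * Real.exp ((1 - η) * L)) := by
            rw [hE1, pow_exp (by omega)]
            ring
        _ = _ := by
            rw [← Real.exp_add]
            congr 2
            ring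
    have h2 : E2 = C * Real.exp ((1 - κ / 4) * L) := by rw [hE2, pow_exp (by omega)]
    rw [h2]
    calc 25 * (Er C1 K1 b y * E1 + C * Real.exp ((1 - κ / 4) * L)) ≤
          25 * ((2 + 2 * K1) * C) * Real.exp ((1 - (η - xs)) * L) +
            25 * C * Real.exp ((1 - κ / 4) * L) := by linarith
      _ ≤ η0 / 2 * (N / L ^ (k + t0 + 2)) + η0 / 2 * (N / L ^ (k + t0 + 2)) := add_le_add hs4 hs5
      _ = _ := by ring
  have hV0 := hVT k (by omega)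
  have hV1 := hVT (k + 1) (by omega)
  have hV2 := hVT (k + 2) le_rfl
  rw [show k + 1 + t0 = k + t0 + 1 by ring] at hV1
  rw [show k + 2 + t0 = k + t0 + 2 by ring] at hV2
  have hP := sum_PB2 (k := k) (q := k + t0) (C0 := C0) (K0 := K0) (b := b) (N := N) (y := y) (H := H)
    (L := L) (E := (2 + 2 * (K0 : ℝ)) * Real.exp (xs * L)) hAH hL0 hV0 hAd hPE
  have hA1σ : 2 * (Cv * σ * (2 / κ) ^ (k + t0)) + 1 ≤ σ * A1 := by
    rw [hA1]
    linarith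
  have hH0 : (0 : ℝ) ≤ H := Nat.cast_nonneg _
  replace hP := hP.trans (mul_le_mul_of_nonneg_right hA1σ (by positivity))
  have hins : ∀ (a : ℕ) (S : Finset ℕ), insert a (T0 ∪ S) = T0 ∪ insert a S := fun a S =>
    (union_insert a T0 S).symm
  have hA2σ : 25 * CD * (2 * ((k + 1) * (Cv * σ * (2 / κ) ^ (k + 1 + t0))) + 1) ≤ σ * A2 := by
    have h1 : (0 : ℝ) ≤ 25 * CD := by positivity
    have h2 : 2 * ((k + 1) * (Cv * σ * (2 / κ) ^ (k + 1 + t0))) + 1 ≤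
        σ * (2 * ((k + 1) * (Cv * (2 / κ) ^ (k + 1 + t0))) + 1) := by linarith
    rw [hA2]
    refine (mul_le_mul_of_nonneg_left h2 h1).trans (le_of_eq (by ring))
  have hη1σ : e2 * ((k + 1) * ((k + 2) * (Cv * σ * (2 / κ) ^ (k + 2 + t0)))) = σ * η1 := by
    rw [hη1]
    ring
  have hη0σ : η0 ≤ σ * η0 := le_mul_of_one_le_left hη00.le hσ
  have hQ : ∑ S ∈ A.powersetCard k, QW E1 E2 CD Es C1 K1 b y N A T0 S ≤
      (σ * (A2 / Λ + η1 + η0)) * (N * (H : ℝ) ^ (k + 2) / L ^ (k + t0 + 2)) := by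
    have h0 := sum_Q3 (k := k) (q := k + t0) (N := N) (y := y) (H := H) (L := L) (B1 := 25 * CD)
      (e2 := e2) (η0 := η0) (A := A) (T0 := T0) hAH hL0 hη00.le (by positivity) he20.le
      (fun S a => 25 * dgW CD C1 K1 b y N (T0 ∪ S) a)
      (fun S a a' => 25 * ogW E1 E2 Es C1 K1 b y N (T0 ∪ S) a a') ?_ ?_ hV1 hV2
    · have h1 : ∑ S ∈ A.powersetCard k, QW E1 E2 CD Es C1 K1 b y N A T0 S =
          ∑ S ∈ A.powersetCard k, (∑ a ∈ A \ S, 25 * dgW CD C1 K1 b y N (T0 ∪ S) a +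
            ∑ a ∈ A \ S, ∑ a' ∈ A \ (insert a S), 25 * ogW E1 E2 Es C1 K1 b y N (T0 ∪ S) a a') := by
        refine sum_congr rfl fun S _ => ?_
        unfold QW
        simp only [← mul_sum]
        ring
      rw [h1]
      rw [show k + t0 + 1 = k + 1 + t0 by ring, show k + t0 + 2 = k + 2 + t0 by ring, hη1σ] at h0
      have hX1 : (0 : ℝ) ≤ N * (H : ℝ) ^ (k + 1) / L ^ (k + 1 + t0) := by positivity
      have hX2 : (0 : ℝ) ≤ N * (H : ℝ) ^ (k + 2) / L ^ (k + 2 + t0) := by positivity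
      refine h0.trans ((add_le_add (mul_le_mul_of_nonneg_right hA2σ hX1)
        (mul_le_mul_of_nonneg_right (add_le_add le_rfl hη0σ) hX2)).trans ?_)
      rw [show k + 1 + t0 = k + t0 + 1 by ring, show k + 2 + t0 = k + t0 + 2 by ring]
      have h1 : (N : ℝ) * (H : ℝ) ^ (k + 1) / L ^ (k + t0 + 1) ≤
          1 / Λ * (N * (H : ℝ) ^ (k + 2) / L ^ (k + t0 + 2)) := by
        have e : 1 / Λ * (N * (H : ℝ) ^ (k + 2) / L ^ (k + t0 + 2)) =
            (N * (H : ℝ) ^ (k + 1) / L ^ (k + t0 + 1)) * (H / (Λ * L)) := by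
          rw [pow_succ (H : ℝ) (k + 1), pow_succ L (k + t0 + 1)]
          field_simp
        rw [e]
        refine le_mul_of_one_le_right (by positivity) ?_
        rw [one_le_div (by positivity)]
        exact hH1
      have h2 := mul_le_mul_of_nonneg_left h1 (mul_nonneg hσ0.le hA20.le)
      have e2 : (σ * (A2 / Λ + η1 + η0)) * (N * (H : ℝ) ^ (k + 2) / L ^ (k + t0 + 2)) =
          σ * A2 * (1 / Λ * (N * (H : ℝ) ^ (k + 2) / L ^ (k + t0 + 2))) +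
          (σ * η1 + σ * η0) * (N * (H : ℝ) ^ (k + 2) / L ^ (k + t0 + 2)) := by ring
      rw [e2]
      linarith
    · intro S _ a _
      show 25 * dgW CD C1 K1 b y N (T0 ∪ S) a ≤ _
      unfold dgW
      rw [hins]
      have h1 : CD * Er C1 K1 b y ≤ CD * (N / L ^ (k + t0 + 1)) :=
        mul_le_mul_of_nonneg_left hErN hCD.le
      linarith
    · intro S _ a _ a' _
      show 25 * ogW E1 E2 Es C1 K1 b y N (T0 ∪ S) a a' ≤ _
      unfold ogW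
      rw [hins, hins, Finset.insert_comm a a' S, he2]
      linarith
  have hcnt' : ∀ T : Finset ℕ, T.card ≤ T0.card + k + 2 → CntH C0 K0 b y T := by
    intro T hT N' a a' d d' h1 h2 h3 h4 h5
    exact hcnt b hbB0 y y2 T (by rw [← hT0c]; exact hT) N' a a' d d' h1 h2 h3 h4 h5
  have hFL : FLH (T0.card + k + 2) C1 K1 b y := by
    rw [hT0c]
    exact hflh b hbB1 y y2
  have hAtot2 : (σ * A1) * (σ * (A2 / Λ + η1 + η0)) ≤ (ε1 * δ2 / 2 ^ (k + 1)) ^ 2 := by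
    have h1 : (ε1 * δ2 / 2 ^ (k + 1)) ^ 2 = σ ^ 2 * τ := by
      rw [hτ, hδ2]
      ring
    rw [h1]
    have h2 := mul_le_mul_of_nonneg_left hAtot (by positivity : 0 ≤ σ ^ 2)
    linarith
  -- one set of moduli
  have hone : ∀ j ∈ J, ∀ Bad' : Finset (Finset ℕ), (∀ D' ∈ Bad', D' ∈ A.powersetCard (k + 1) ∧
      ¬ Good e g (ro y) (LF y (W j) N) (δ2 * (N / L ^ (k + t0 + 1))) D') →
      (Bad'.card : ℝ) ≤ ε1 * (H : ℝ) ^ (k + 1) := by
    intro j hj Bad' hBad'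
    have hOD := hW3 j hj y y2 hya'
    have hDG := HD N hNN₁ (W j) (hW2 j) y
    exact (bad_leW (ε₀ := ε₀) (E1 := E1) (E2 := E2) (E3 := CD) (s := Es) y2 hN4 hya' hε₀1 hE10 hE20
      hCD.le hEED (hW2 j) hOD hDG A T0 X0 hT0 hAN hpar hdis hX0 hcnt' hFL hKN he heT hg hx0 hyM Bad'
      hBad').trans
      (few_calc2 hN0 hH0 hL0 hδ20 hε10 (by positivity) (by positivity) hP hQ hAtot2)
  -- all moduli
  have hunion : Bad ⊆ J.biUnion (fun j => Bad.filter (fun D' =>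
      ¬ Good e g (ro y) (LF y (W j) N) (δ2 * (N / L ^ (k + t0 + 1))) D')) := by
    intro D' hD'
    by_contra hn
    rw [mem_biUnion] at hn
    push Not at hn
    have hgood : ∀ j ∈ J, Good e g (ro y) (LF y (W j) N) (δ2 * (N / L ^ (k + t0 + 1))) D' := by
      intro j hj
      by_contra h1
      exact hn j hj (mem_filter.2 ⟨hD', h1⟩)
    refine (hBad D' hD').2 ?_
    intro t ht S1 hS1
    have h1 : LF y (FR N κ) N (WH e g (ro y) (D'.erase t) S1) t ≤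
        ∑ j ∈ J, LF y (W j) N (WH e g (ro y) (D'.erase t) S1) t := by
      unfold LF
      calc ∑ d ∈ FR N κ, |∑ n ∈ Icc 1 N, WH e g (ro y) (D'.erase t) S1 n *
            (ro y (n + t) * cen d (n + t))|
          ≤ ∑ d ∈ J.biUnion W, |∑ n ∈ Icc 1 N, WH e g (ro y) (D'.erase t) S1 n *
            (ro y (n + t) * cen d (n + t))| := by
            refine sum_le_sum_of_subset_of_nonneg ?_ fun _ _ _ => abs_nonneg _
            intro d hd
            obtain ⟨j, hj, hdj⟩ := hW1 d hd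
            exact mem_biUnion.2 ⟨j, hj, hdj⟩
        _ ≤ _ := sum_bU W (fun d => |∑ n ∈ Icc 1 N, WH e g (ro y) (D'.erase t) S1 n *
            (ro y (n + t) * cen d (n + t))|) fun _ => abs_nonneg _
    refine h1.trans ?_
    calc ∑ j ∈ J, LF y (W j) N (WH e g (ro y) (D'.erase t) S1) t
        ≤ ∑ _j ∈ J, δ2 * (N / L ^ (k + t0 + 1)) :=
          sum_le_sum fun j hj => hgood j hj t ht S1 hS1
      _ = J.card * (δ2 * (N / L ^ (k + t0 + 1))) := by rw [sum_const, nsmul_eq_mul]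
      _ ≤ Jc * (δ2 * (N / L ^ (k + t0 + 1))) := mul_le_mul_of_nonneg_right hJcc hx0.le
      _ = _ := by
          rw [hδ2, hδ1]
          field_simp
  calc (Bad.card : ℝ) ≤ ((J.biUnion (fun j => Bad.filter (fun D' =>
      ¬ Good e g (ro y) (LF y (W j) N) (δ2 * (N / L ^ (k + t0 + 1))) D'))).card : ℝ) := by
        exact_mod_cast card_le_card hunion
    _ ≤ ((∑ j ∈ J, (Bad.filter (fun D' =>
      ¬ Good e g (ro y) (LF y (W j) N) (δ2 * (N / L ^ (k + t0 + 1))) D')).card : ℕ) : ℝ) := by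
        exact_mod_cast card_biUnion_le
    _ = ∑ j ∈ J, ((Bad.filter (fun D' =>
      ¬ Good e g (ro y) (LF y (W j) N) (δ2 * (N / L ^ (k + t0 + 1))) D')).card : ℝ) := by push_cast; rfl
    _ ≤ ∑ _j ∈ J, ε1 * (H : ℝ) ^ (k + 1) := by
        refine sum_le_sum fun j hj => hone j hj _ ?_
        intro D' hD'
        rw [mem_filter] at hD'
        exact ⟨(hBad D' hD'.1).1, hD'.2⟩
    _ = J.card * (ε1 * (H : ℝ) ^ (k + 1)) := by rw [sum_const, nsmul_eq_mul]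
    _ ≤ Jc * (ε1 * (H : ℝ) ^ (k + 1)) := mul_le_mul_of_nonneg_right hJcc (by positivity)
    _ = _ := by
        rw [hε1]
        field_simp

end Pool.Agent.J4.H31.CH
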