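import Mathlib

/-! Project CH, piece SIV: numerics. -/

set_option autoImplicit false

namespace Pool.Agent.J4.H31.CH.Siv

open Finset

lemma log_hi {k : ℕ} (hk : 1 ≤ k) : Real.log (((k : ℝ) + 1) / k) ≤
    1 / ((k : ℝ) + 1) + (1 / ((k : ℝ) + 1)) ^ 2 / 2 + (1 / ((k : ℝ) + 1)) ^ 3 / 3 +
      (1 / ((k : ℝ) + 1)) ^ 4 / (1 - 1 / ((k : ℝ) + 1)) := by
  have hk0 : (0 : ℝ) < k := by exact_mod_cast hk
  have hx : (0 : ℝ) < 1 / ((k : ℝ) + 1) := by positivity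
  have hx1 : 1 / ((k : ℝ) + 1) < 1 := by
    rw [div_lt_one (by positivity)]
    linarith
  have h := Real.abs_log_sub_add_sum_range_le (x := 1 / ((k : ℝ) + 1)) (by rw [abs_of_pos hx]; exact hx1) 3
  rw [abs_of_pos hx] at h
  have h1 := (abs_le.1 h).1
  simp only [Finset.sum_range_succ, Finset.sum_range_zero] at h1
  have h2 : Real.log (((k : ℝ) + 1) / k) = - Real.log (1 - 1 / ((k : ℝ) + 1)) := by
    have h3 : 1 - 1 / ((k : ℝ) + 1) = k / ((k : ℝ) + 1) := by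
      have : (k : ℝ) + 1 ≠ 0 := by positivity
      field_simp
      ring
    rw [← Real.log_inv, h3, inv_div]
  rw [h2]
  norm_num at h1 ⊢
  linarith

/-- numerators -/
def An (k : ℕ) : ℕ := 288000 * (6 * (k + 1) ^ 2 * k + 3 * (k + 1) * k + 2 * k + 6)
/-- denominators -/
def Bn (k : ℕ) : ℕ := 6 * (k + 1) ^ 3 * k * (143712 - 1000 * (k + 1))
/-- decimal upper bounds -/
def Tn (k : ℕ) : ℕ := An k * 10 ^ 8 / Bn k + 1

lemma term_le {k : ℕ} (h1 : 36 ≤ k) (h2 : k < 96) :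
    Real.log (((k : ℝ) + 1) / k) * (1 / (499 / 1000 - ((k : ℝ) + 1) / 288)) ≤ (Tn k : ℝ) / 10 ^ 8 := by
  have hk0 : (36 : ℝ) ≤ k := by exact_mod_cast h1
  have hk1 : (k : ℝ) + 1 ≤ 96 := by exact_mod_cast h2
  have hb : (0 : ℝ) < 499 / 1000 - ((k : ℝ) + 1) / 288 := by linarith
  have e1 := mul_le_mul_of_nonneg_right (log_hi (k := k) (by omega)) (one_div_pos.2 hb).le
  refine e1.trans ?_
  have hB : (Bn k : ℝ) = 6 * ((k : ℝ) + 1) ^ 3 * k * (143712 - 1000 * ((k : ℝ) + 1)) := by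
    unfold Bn
    rw [Nat.cast_mul, Nat.cast_sub (by omega)]
    push_cast
    ring
  have hB0 : (0 : ℝ) < Bn k := by
    rw [hB]
    have : (0 : ℝ) < 143712 - 1000 * ((k : ℝ) + 1) := by linarith
    positivity
  have e2 : (1 / ((k : ℝ) + 1) + (1 / ((k : ℝ) + 1)) ^ 2 / 2 + (1 / ((k : ℝ) + 1)) ^ 3 / 3 +
      (1 / ((k : ℝ) + 1)) ^ 4 / (1 - 1 / ((k : ℝ) + 1))) * (1 / (499 / 1000 - ((k : ℝ) + 1) / 288)) =
      (An k : ℝ) / Bn k := by
    rw [hB]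
    unfold An
    push_cast
    have h3 : (143712 - 1000 * ((k : ℝ) + 1)) ≠ 0 := by
      have : (0 : ℝ) < 143712 - 1000 * ((k : ℝ) + 1) := by linarith
      exact this.ne'
    have h4 : 499 / 1000 - ((k : ℝ) + 1) / 288 = (143712 - 1000 * ((k : ℝ) + 1)) / 288000 := by ring
    have h5 : (1 - 1 / ((k : ℝ) + 1)) = k / ((k : ℝ) + 1) := by
      field_simp
      ring
    rw [h4, h5]
    have h6 : (k : ℝ) ≠ 0 := by linarith
    have h7 : (k : ℝ) + 1 ≠ 0 := by linarith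
    field_simp
    ring
  rw [e2]
  rw [div_le_div_iff₀ hB0 (by norm_num)]
  have h8 : An k * 10 ^ 8 ≤ Tn k * Bn k := by
    unfold Tn
    have hB1 : 0 < Bn k := by exact_mod_cast hB0
    rw [mul_comm _ (Bn k)]
    exact (Nat.lt_mul_div_succ _ hB1).le
  exact_mod_cast h8

lemma sum_Tn : ∑ k ∈ Ico (36 : ℕ) 96, Tn k ≤ 362186000 := by decide +kernel

lemma log_lo : (10959 / 10000 : ℝ) ≤ Real.log (374 / 125) := by
  have h1 := Real.log_two_gt_d9
  have h2 : Real.log (374 / 125) = Real.log 2 - Real.log (1 - 62 / 187) := by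
    rw [← Real.log_div (by norm_num) (by norm_num)]
    norm_num
  have h := Real.abs_log_sub_add_sum_range_le (x := (62 / 187 : ℝ)) (by rw [abs_of_pos (by norm_num)]; norm_num) 10
  rw [abs_of_pos (by norm_num : (0 : ℝ) < 62 / 187)] at h
  have h3 := (abs_le.1 h).2
  simp only [Finset.sum_range_succ, Finset.sum_range_zero] at h3
  norm_num at h3 h2 ⊢
  linarith

/-- the numerical inequality -/
theorem numC : 1 / 2 * ∑ k ∈ Ico (36 : ℕ) 96, Real.log (((k : ℝ) + 1) / k) *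
    (1 / (499 / 1000 - ((k : ℝ) + 1) / 288)) + 385 / 1000 < Real.log (374 / 125) / (499 / 1000) := by
  have h1 : ∑ k ∈ Ico (36 : ℕ) 96, Real.log (((k : ℝ) + 1) / k) *
      (1 / (499 / 1000 - ((k : ℝ) + 1) / 288)) ≤ ∑ k ∈ Ico (36 : ℕ) 96, (Tn k : ℝ) / 10 ^ 8 :=
    sum_le_sum fun k hk => term_le (mem_Ico.1 hk).1 (mem_Ico.1 hk).2
  have h2 : ∑ k ∈ Ico (36 : ℕ) 96, (Tn k : ℝ) / 10 ^ 8 ≤ 362186000 / 10 ^ 8 := by
    rw [← sum_div]
    refine div_le_div_of_nonneg_right ?_ (by norm_num)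
    exact_mod_cast sum_Tn
  have h3 : (10959 / 10000 : ℝ) / (499 / 1000) ≤ Real.log (374 / 125) / (499 / 1000) :=
    div_le_div_of_nonneg_right log_lo (by norm_num)
  have h4 := h1.trans h2
  norm_num at h3 h4 ⊢
  linarith

lemma sum_b : ∑ k ∈ Ico (36 : ℕ) 96, 1 / (499 / 1000 - ((k : ℝ) + 1) / 288) ≤ 363 := by
  have h : ∀ k ∈ Ico (36 : ℕ) 96, 1 / (499 / 1000 - ((k : ℝ) + 1) / 288) ≤ 605 / 100 := by
    intro k hk
    have h2 : (k : ℝ) + 1 ≤ 96 := by exact_mod_cast (mem_Ico.1 hk).2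
    rw [div_le_iff₀ (by linarith)]
    linarith
  refine (sum_le_card_nsmul _ _ _ h).trans ?_
  rw [Nat.card_Ico]
  norm_num

end Pool.Agent.J4.H31.CH.Siv
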