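import Mathlib
import Pool.Agent.J4.H38.CH.Defs
import Pool.Agent.J4.H31.CH.Siv1

/-! Project CH, piece SIV: the two sieves with explicit constants, level `499/1000`. -/

set_option autoImplicit false

namespace Pool.Agent.J4.H31.CH

open Finset
open Pool.Agent.W23
open Pool.Agent.W23.DC (tt pr LL MM Siz Mer SF mem_pr siz ind mem_EE)
open Pool.Agent.Y822.Lin (mer_of)
open Pool.Agent.Y822.F (iu sz_eq)
open Pool.Agent.J4.H38.SR (Wk EEx_facts)
open Pool.Agent.J4.H38.CH (FC)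

namespace Siv

lemma mem_FC {N : ℕ} {κ : ℝ} {d : ℕ} : d ∈ FC N κ ↔ (1 ≤ d ∧ d ≤ ⌊(N : ℝ) ^ (499 / 1000 : ℝ)⌋₊) ∧
    Squarefree d ∧ ∀ p ∈ d.primeFactors, κ ≤ tt N p := by
  classical
  unfold FC
  rw [mem_filter, mem_Icc]

/-- the pointwise inequality -/
theorem Wk_geC {N : ℕ} (hN : 2 ≤ N) {ε₁ : ℝ} (K n : ℕ) :
    LL (pr N ε₁ (1 / 8)) (tt N) (ind n) K false (499 / 1000) (1 / 8) 1 -
      1 / 2 * ∑ q ∈ pr N (1 / 8) (1 / 3),
        LL (pr N ε₁ (1 / 8)) (tt N) (ind n) K true (499 / 1000 - tt N q) (1 / 8) q ≤ Wk N ε₁ n := by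
  classical
  have hS := siz hN ε₁ (1 / 8)
  have h1 := (Pool.Agent.W52.DC.PT (pr N ε₁ (1 / 8)) (tt N) hS n K (499 / 1000) (1 / 8) 1
    (fun p hp _ h => (hS.pr p hp).one_lt.ne' (Nat.dvd_one.1 h))).2
  have h2 : ∀ q ∈ pr N (1 / 8) (1 / 3), iu N ε₁ (1 / 8) n * ind n q ≤
      LL (pr N ε₁ (1 / 8)) (tt N) (ind n) K true (499 / 1000 - tt N q) (1 / 8) q := by
    intro q hq
    have h3 := (Pool.Agent.W52.DC.PT (pr N ε₁ (1 / 8)) (tt N) hS n K (499 / 1000 - tt N q) (1 / 8) q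
      (fun p hp _ h => by
      have h4 := (Nat.prime_dvd_prime_iff_eq (hS.pr p hp) (mem_pr.1 hq).2.1).1 h
      have h5 := (mem_pr.1 hp).2.2.2
      have h6 := (mem_pr.1 hq).2.2.1
      rw [h4] at h5
      linarith)).1
    refine le_trans ?_ h3
    unfold iu ind
    by_cases h7 : ∀ p ∈ pr N ε₁ (1 / 8), ¬ p ∣ n
    · by_cases h8 : q ∣ n
      · rw [if_pos h7, if_pos h8, if_pos ⟨h8, fun p hp _ => h7 p hp⟩, one_mul]
      · rw [if_neg h8, mul_zero]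
        split_ifs <;> norm_num
    · rw [if_neg h7, zero_mul]
      split_ifs <;> norm_num
  have h9 : LL (pr N ε₁ (1 / 8)) (tt N) (ind n) K false (499 / 1000) (1 / 8) 1 ≤ iu N ε₁ (1 / 8) n := by
    refine h1.trans ?_
    unfold iu
    by_cases h7 : ∀ p ∈ pr N ε₁ (1 / 8), ¬ p ∣ n
    · rw [if_pos h7]
      split_ifs <;> norm_num
    · rw [if_neg h7, if_neg]
      rintro ⟨-, h8⟩
      exact h7 (fun p hp => h8 p hp (mem_pr.1 hp).2.2.2)
  have h10 := Finset.sum_le_sum h2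
  rw [← mul_sum] at h10
  have h11 : Wk N ε₁ n = iu N ε₁ (1 / 8) n -
      1 / 2 * (iu N ε₁ (1 / 8) n * ∑ q ∈ pr N (1 / 8) (1 / 3), ind n q) := by
    unfold Wk
    ring
  rw [h11]
  linarith

section
variable {N : ℕ} {ε₁ : ℝ}

/-- the first error term -/
theorem errC1 (hN : 2 ≤ N) (z : ℝ) (r : ℕ → ℝ) :
    ∑ e ∈ DC.EE (pr N ε₁ z) (tt N) (499 / 1000) z, |r (1 * e)| ≤
      ∑ d ∈ FC N ε₁, |r d| := by
  classical
  simp only [one_mul]
  apply Finset.sum_le_sum_of_subset_of_nonneg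
  · intro e he
    obtain ⟨h1, h2, h3, h4⟩ := EEx_facts hN (by norm_num) he
    exact mem_FC.2 ⟨⟨h1, Nat.le_floor h3⟩, h2, fun p hp => (h4 p hp).1⟩
  · intro _ _ _
    exact abs_nonneg _

/-- the second error term -/
theorem errC2 (hN : 2 ≤ N) (hε2 : ε₁ ≤ 1 / 25) (r : ℕ → ℝ) :
    ∑ q ∈ pr N (1 / 8) (1 / 3),
      ∑ e ∈ DC.EE (pr N ε₁ (1 / 8)) (tt N) (499 / 1000 - tt N q) (1 / 8), |r (q * e)| ≤
      ∑ d ∈ FC N ε₁, |r d| := by
  classical
  have hN0 : (0 : ℝ) < N := by exact_mod_cast (by omega : 0 < N)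
  have hL : 0 < Real.log N := Real.log_pos (by exact_mod_cast (by omega : 1 < N))
  rw [Finset.sum_sigma' (f := fun q e => |r (q * e)|)]
  have hinj : Set.InjOn (fun x : (_ : ℕ) × ℕ => x.1 * x.2)
      ((pr N (1 / 8) (1 / 3)).sigma
        (fun q => DC.EE (pr N ε₁ (1 / 8)) (tt N) (499 / 1000 - tt N q) (1 / 8)) : Finset ((_ : ℕ) × ℕ)) := by
    rintro ⟨q, e⟩ hqe ⟨q', e'⟩ hqe' heq
    rw [mem_coe, mem_sigma] at hqe hqe'
    simp only at hqe hqe' heq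
    have hq := mem_pr.1 hqe.1
    have hq' := mem_pr.1 hqe'.1
    obtain ⟨h1, h2, h3, h4⟩ := mem_EE hqe.2
    obtain ⟨h1', h2', h3', h4'⟩ := mem_EE hqe'.2
    have hqq : q = q' := by
      have hd : q ∣ q' * e' := heq ▸ Dvd.intro e rfl
      rcases (hq.2.1.dvd_mul).1 hd with h | h
      · exact (Nat.prime_dvd_prime_iff_eq hq.2.1 hq'.2.1).1 h
      · exfalso
        have := (h3' q (Nat.mem_primeFactors.2 ⟨hq.2.1, h, h1'⟩)).2
        linarith [hq.2.2.1]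
    subst hqq
    have : e = e' := Nat.eq_of_mul_eq_mul_left hq.2.1.pos heq
    rw [this]
  calc ∑ x ∈ (pr N (1 / 8) (1 / 3)).sigma
        (fun q => DC.EE (pr N ε₁ (1 / 8)) (tt N) (499 / 1000 - tt N q) (1 / 8)), |r (x.1 * x.2)|
      = ∑ d ∈ ((pr N (1 / 8) (1 / 3)).sigma
        (fun q => DC.EE (pr N ε₁ (1 / 8)) (tt N) (499 / 1000 - tt N q) (1 / 8))).image
          (fun x => x.1 * x.2), |r d| := by
        rw [Finset.sum_image hinj]
    _ ≤ _ := by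
        apply Finset.sum_le_sum_of_subset_of_nonneg
        · intro d hd
          rw [mem_image] at hd
          obtain ⟨⟨q, e⟩, hqe, rfl⟩ := hd
          rw [mem_sigma] at hqe
          simp only at hqe ⊢
          have hq := mem_pr.1 hqe.1
          obtain ⟨h1, h2, h3, h4⟩ := EEx_facts hN (by linarith [hq.2.2.2]) hqe.2
          have hnd : ¬ q ∣ e := by
            intro h
            have := (h4 q (Nat.mem_primeFactors.2 ⟨hq.2.1, h, by omega⟩)).2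
            linarith [hq.2.2.1]
          have hq0 : (0 : ℝ) < q := by exact_mod_cast hq.2.1.pos
          have hcop : Nat.Coprime q e := (hq.2.1.coprime_iff_not_dvd).2 hnd
          refine mem_FC.2 ⟨⟨Nat.mul_pos hq.2.1.pos h1, Nat.le_floor ?_⟩,
            (Nat.squarefree_mul hcop).2 ⟨hq.2.1.prime.squarefree, h2⟩, ?_⟩
          · push_cast
            have h5 : (q : ℝ) = (N : ℝ) ^ (tt N q) := by
              rw [Real.rpow_def_of_pos hN0]
              unfold tt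
              rw [mul_div_cancel₀ _ hL.ne', Real.exp_log hq0]
            calc (q : ℝ) * e ≤ (N : ℝ) ^ (tt N q) * (N : ℝ) ^ (499 / 1000 - tt N q) := by
                  rw [← h5]
                  exact mul_le_mul_of_nonneg_left h3 hq0.le
              _ = (N : ℝ) ^ (499 / 1000 : ℝ) := by
                  rw [← Real.rpow_add hN0]
                  congr 1
                  ring
          · intro p hp
            rw [Nat.primeFactors_mul hq.2.1.ne_zero (by omega), mem_union, hq.2.1.primeFactors,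
              mem_singleton] at hp
            rcases hp with rfl | hp
            · linarith [hq.2.2.1]
            · exact (h4 p hp).1
        · intro _ _ _
          exact abs_nonneg _

end

/-- the sum over the middle primes -/
theorem sumC (η : ℝ) (hη : 0 < η) : ∃ N₀ : ℕ, ∀ N : ℕ, N₀ ≤ N →
    ∑ q ∈ pr N (1 / 8) (1 / 3), 1 / (q : ℝ) * (1 / (499 / 1000 - tt N q)) ≤
      ∑ k ∈ Ico (36 : ℕ) 96, Real.log (((k : ℝ) + 1) / k) * (1 / (499 / 1000 - ((k : ℝ) + 1) / 288)) +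
        363 * η ∧
    ∑ q ∈ pr N (1 / 8) (1 / 3), 1 / (q : ℝ) ≤ 2 + η := by
  classical
  obtain ⟨N₀, H⟩ := mer_of (1 / 8) (1 / 3) η (by norm_num) (by norm_num) hη
  refine ⟨N₀, fun N hN => ?_⟩
  have H' := H N hN
  have h5 := (abs_le.1 (H' (1 / 8) (1 / 3) (by norm_num) (by norm_num) (by norm_num))).2
  rw [show (1 / 3 / (1 / 8) : ℝ) = 8 / 3 by norm_num] at h5
  set Q := pr N (1 / 8) (1 / 3) with hQ
  constructor
  · have hb : ∀ k ∈ Ico (36 : ℕ) 96, (0 : ℝ) < 499 / 1000 - ((k : ℝ) + 1) / 288 := by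
      intro k hk
      have h2 : (k : ℝ) + 1 ≤ 96 := by exact_mod_cast (mem_Ico.1 hk).2
      linarith
    have hpt : ∀ q ∈ Q, 1 / (q : ℝ) * (1 / (499 / 1000 - tt N q)) ≤
        ∑ k ∈ Ico (36 : ℕ) 96, (if (k : ℝ) / 288 ≤ tt N q ∧ tt N q < ((k : ℝ) + 1) / 288 then
          1 / (q : ℝ) else 0) * (1 / (499 / 1000 - ((k : ℝ) + 1) / 288)) := by
      intro q hq
      have hq1 := (mem_pr.1 hq).2.2.1
      have hq2 := (mem_pr.1 hq).2.2.2
      have hq0 : (0 : ℝ) ≤ 1 / (q : ℝ) := by positivity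
      have hfl : (⌊288 * tt N q⌋₊ : ℝ) ≤ 288 * tt N q := Nat.floor_le (by linarith)
      have hfl2 : 288 * tt N q < (⌊288 * tt N q⌋₊ : ℝ) + 1 := Nat.lt_floor_add_one _
      have hk1 : 36 ≤ ⌊288 * tt N q⌋₊ := Nat.le_floor (by push_cast; linarith)
      have hk2 : ⌊288 * tt N q⌋₊ < 96 := by
        have : (⌊288 * tt N q⌋₊ : ℝ) < 96 := by linarith
        exact_mod_cast this
      have hmem : ⌊288 * tt N q⌋₊ ∈ Ico (36 : ℕ) 96 := mem_Ico.2 ⟨hk1, hk2⟩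
      have hb' := hb _ hmem
      refine le_trans ?_ (single_le_sum (f := fun k : ℕ => (if (k : ℝ) / 288 ≤ tt N q ∧ tt N q < ((k : ℝ) + 1) / 288 then
          1 / (q : ℝ) else 0) * (1 / (499 / 1000 - ((k : ℝ) + 1) / 288))) (fun k hk => ?_) hmem)
      · have hc : ((⌊288 * tt N q⌋₊ : ℕ) : ℝ) / 288 ≤ tt N q ∧
            tt N q < (((⌊288 * tt N q⌋₊ : ℕ) : ℝ) + 1) / 288 := by
          constructor
          · rw [div_le_iff₀ (by norm_num)]
            linarith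
          · rw [lt_div_iff₀ (by norm_num)]
            linarith
        simp only [if_pos hc]
        refine mul_le_mul_of_nonneg_left (one_div_le_one_div_of_le hb' ?_) hq0
        linarith [hc.2]
      · have := hb k hk
        split_ifs
        · positivity
        · simp
    refine (sum_le_sum hpt).trans ?_
    rw [sum_comm]
    have hk : ∀ k ∈ Ico (36 : ℕ) 96, ∑ q ∈ Q, (if (k : ℝ) / 288 ≤ tt N q ∧ tt N q < ((k : ℝ) + 1) / 288 then
          1 / (q : ℝ) else 0) * (1 / (499 / 1000 - ((k : ℝ) + 1) / 288)) ≤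
        (Real.log (((k : ℝ) + 1) / k) + η) * (1 / (499 / 1000 - ((k : ℝ) + 1) / 288)) := by
      intro k hk
      have h1 : (36 : ℝ) ≤ k := by exact_mod_cast (mem_Ico.1 hk).1
      have h2 : (k : ℝ) + 1 ≤ 96 := by exact_mod_cast (mem_Ico.1 hk).2
      have h3 := (abs_le.1 (H' ((k : ℝ) / 288) (((k : ℝ) + 1) / 288) (by linarith) (by linarith)
        (by linarith))).2
      rw [show (((k : ℝ) + 1) / 288 / ((k : ℝ) / 288) : ℝ) = ((k : ℝ) + 1) / k by field_simp] at h3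
      rw [← sum_mul, ← sum_filter]
      refine mul_le_mul_of_nonneg_right (by linarith) (one_div_pos.2 (hb k hk)).le
    refine (sum_le_sum hk).trans ?_
    simp only [add_mul]
    rw [sum_add_distrib, ← mul_sum]
    have := mul_le_mul_of_nonneg_left sum_b hη.le
    linarith
  · have e : Q.filter (fun p => 1 / 8 ≤ tt N p ∧ tt N p < 1 / 3) = Q := by
      refine filter_true_of_mem fun q hq => ?_
      exact (mem_pr.1 hq).2.2
    rw [e] at h5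
    have h6 : Real.log (8 / 3) ≤ 2 := by
      have := Real.log_le_sub_one_of_pos (by norm_num : (0 : ℝ) < 8 / 3)
      linarith
    linarith

/-- **the weighted sieve** -/
theorem lowC {A0 : ℝ} {F f : ℝ → ℝ} (hS : SF A0 F f) : ∀ ε₁ : ℝ, 0 < ε₁ → ε₁ ≤ 1 / 25 → ∃ N₀ : ℕ, ∀ N : ℕ, N₀ ≤ N →
      ∀ (Ω : Finset ℕ) (w : ℕ → ℝ) (m : ℕ → ℕ) (X : ℝ), (∀ n ∈ Ω, 0 ≤ w n) → 0 ≤ X →
      385 / 1000 * (A0 * ε₁ * X) - 2 * ∑ d ∈ FC N ε₁, |(∑ n ∈ Ω, w n * ind (m n) d) - X * (1 / (d : ℝ))| ≤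
        ∑ n ∈ Ω, w n * Wk N ε₁ (m n) := by
  classical
  obtain ⟨J, hJ⟩ : ∃ J : ℝ, J = 1 / 2 * ∑ k ∈ Ico (36 : ℕ) 96, Real.log (((k : ℝ) + 1) / k) *
    (1 / (499 / 1000 - ((k : ℝ) + 1) / 288)) := ⟨_, rfl⟩
  obtain ⟨Z, hZ⟩ : ∃ Z : ℝ, Z = Real.log (374 / 125) / (499 / 1000) := ⟨_, rfl⟩
  have hJZ : J + 385 / 1000 < Z := by rw [hJ, hZ]; exact numC
  obtain ⟨c₂, hc₂⟩ : ∃ c₂ : ℝ, c₂ = Z - J - 385 / 1000 := ⟨_, rfl⟩
  have hc₂0 : 0 < c₂ := by rw [hc₂]; linarith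
  have hA0 := hS.pos
  intro ε₁ hε hε2
  obtain ⟨η, hη0, HM⟩ := Pool.Agent.W505.DC.MT Pool.Agent.W505.DC.MI A0 F f hS ε₁ (ε₁ * A0 * c₂ / 32)
    ⌈1 / ε₁⌉₊ hε (by linarith) (by positivity)
  obtain ⟨N₁, hN₁⟩ := mer_of ε₁ (1 / 8) η hε (by norm_num) hη0
  obtain ⟨N₂, hN₂⟩ := sumC (min (c₂ / 400) 1) (lt_min (by positivity) one_pos)
  refine ⟨max (max N₁ N₂) 2, ?_⟩
  intro N hN Ω w m X hw hX
  have hNN₁ : N₁ ≤ N := ((le_max_left _ _).trans (le_max_left _ _)).trans hN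
  have hNN₂ : N₂ ≤ N := ((le_max_right _ _).trans (le_max_left _ _)).trans hN
  have hN2 : 2 ≤ N := (le_max_right _ _).trans hN
  set P := pr N ε₁ (1 / 8) with hP
  set Q := pr N (1 / 8) (1 / 3) with hQ
  set g : ℕ → ℝ := fun p => 1 / (p : ℝ) with hg
  set K := ⌈1 / ε₁⌉₊ with hK
  set r : ℕ → ℝ := fun e => (∑ n ∈ Ω, w n * ind (m n) e) - X * (1 / (e : ℝ)) with hr
  set R := ∑ d ∈ FC N ε₁, |r d| with hR
  have hR0 : 0 ≤ R := Finset.sum_nonneg fun _ _ => abs_nonneg _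
  have hKε : 1 ≤ (K + 2) * ε₁ := by
    have h1 : 1 / ε₁ ≤ K := Nat.le_ceil _
    have h2 : 1 / ε₁ * ε₁ = 1 := by field_simp
    nlinarith
  have hg0 : ∀ p ∈ P, 0 ≤ g p := fun p _ => by rw [hg]; positivity
  have HM' := HM P (tt N) g (1 / 8) (by norm_num) hg0 (fun p hp => (mem_pr.1 hp).2.2.1)
    (hN₁ N hNN₁) K le_rfl
  -- the main terms
  have hminus : ε₁ * A0 * Z - ε₁ * A0 * c₂ / 32 ≤ MM P (tt N) g K false (499 / 1000) (1 / 8) := by
    have h1 := (HM' (499 / 1000) (1 / 8) (by linarith) (by linarith) le_rfl (by norm_num)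
      (by norm_num)).2 (by norm_num)
    have h2 : ε₁ / (1 / 8) * f (499 / 1000 / (1 / 8)) = ε₁ * A0 * Z := by
      rw [hS.f4 _ (by norm_num) (by norm_num), hZ]
      have : (499 / 1000 / (1 / 8) - 1 : ℝ) = 374 / 125 := by norm_num
      rw [this]
      ring
    rw [h2] at h1
    exact h1
  have hplus : ∀ q ∈ Q, MM P (tt N) g K true (499 / 1000 - tt N q) (1 / 8) ≤
      ε₁ * A0 * (1 / (499 / 1000 - tt N q)) + ε₁ * A0 * c₂ / 32 := by
    intro q hq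
    have hq1 := (mem_pr.1 hq).2.2.1
    have hq2 := (mem_pr.1 hq).2.2.2
    have h5 := (HM' (499 / 1000 - tt N q) (1 / 8) (by linarith) (by linarith) le_rfl (by linarith)
      (by linarith)).1
    have h6 : 0 < 499 / 1000 - tt N q := by linarith
    have h7 : ε₁ / (1 / 8) * F ((499 / 1000 - tt N q) / (1 / 8)) = ε₁ * A0 * (1 / (499 / 1000 - tt N q)) := by
      rw [hS.F3 _ ((one_le_div (by norm_num)).2 (by linarith)) ((div_le_iff₀ (by norm_num)).2 (by linarith))]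
      field_simp
    rw [h7] at h5
    exact h5
  -- the recursion, summed
  have e1 := Pool.Agent.Y822.F.LL_eq hN2 (ε₁ := ε₁) (w := 1 / 8) Ω w m X K false (499 / 1000) (1 / 8) 1
    (fun p hp _ h => (mem_pr.1 hp).2.1.one_lt.ne' (Nat.dvd_one.1 h))
  have e2 : ∀ q ∈ Q, ∑ n ∈ Ω, w n * LL P (tt N) (ind (m n)) K true (499 / 1000 - tt N q) (1 / 8) q =
      X * (1 / (q : ℝ) * MM P (tt N) g K true (499 / 1000 - tt N q) (1 / 8)) +
        LL P (tt N) r K true (499 / 1000 - tt N q) (1 / 8) q := by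
    intro q hq
    exact Pool.Agent.Y822.F.LL_eq hN2 (ε₁ := ε₁) (w := 1 / 8) Ω w m X K true (499 / 1000 - tt N q) (1 / 8) q
      (fun p hp _ h => by
      have h4 := (Nat.prime_dvd_prime_iff_eq (mem_pr.1 hp).2.1 (mem_pr.1 hq).2.1).1 h
      have h5 := (mem_pr.1 hp).2.2.2
      have h6 := (mem_pr.1 hq).2.2.1
      rw [h4] at h5
      linarith)
  have hsum : ∑ n ∈ Ω, w n * (LL P (tt N) (ind (m n)) K false (499 / 1000) (1 / 8) 1 -
      1 / 2 * ∑ q ∈ Q, LL P (tt N) (ind (m n)) K true (499 / 1000 - tt N q) (1 / 8) q) ≤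
      ∑ n ∈ Ω, w n * Wk N ε₁ (m n) :=
    Finset.sum_le_sum fun n hn => mul_le_mul_of_nonneg_left (Wk_geC hN2 K _) (hw n hn)
  have hsplit : ∑ n ∈ Ω, w n * (LL P (tt N) (ind (m n)) K false (499 / 1000) (1 / 8) 1 -
      1 / 2 * ∑ q ∈ Q, LL P (tt N) (ind (m n)) K true (499 / 1000 - tt N q) (1 / 8) q) =
      ∑ n ∈ Ω, w n * LL P (tt N) (ind (m n)) K false (499 / 1000) (1 / 8) 1 -
      1 / 2 * ∑ q ∈ Q, ∑ n ∈ Ω, w n * LL P (tt N) (ind (m n)) K true (499 / 1000 - tt N q) (1 / 8) q := by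
    simp only [mul_sub, Finset.sum_sub_distrib, Finset.mul_sum]
    congr 1
    rw [Finset.sum_comm]
    refine sum_congr rfl fun q _ => sum_congr rfl fun n _ => ?_
    ring
  rw [hsplit] at hsum
  have e3 : ∑ q ∈ Q, ∑ n ∈ Ω, w n * LL P (tt N) (ind (m n)) K true (499 / 1000 - tt N q) (1 / 8) q =
      ∑ q ∈ Q, X * (1 / (q : ℝ) *
        MM P (tt N) g K true (499 / 1000 - tt N q) (1 / 8)) +
      ∑ q ∈ Q, LL P (tt N) r K true (499 / 1000 - tt N q) (1 / 8) q := by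
    rw [← Finset.sum_add_distrib]
    exact sum_congr rfl e2
  rw [e3, e1] at hsum
  -- the errors
  have hE1 : |LL P (tt N) r K false (499 / 1000) (1 / 8) 1| ≤ R :=
    (Pool.Agent.W586.DC.ER P (tt N) (siz hN2 _ _) r K false (499 / 1000) (1 / 8) 1 (by norm_num)
      (fun _ => by norm_num)).trans (errC1 hN2 _ r)
  have hE2 : ∑ q ∈ Q, LL P (tt N) r K true (499 / 1000 - tt N q) (1 / 8) q ≤ R := by
    refine le_trans (sum_le_sum fun q hq => ?_) (errC2 hN2 hε2 r)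
    have h1 := Pool.Agent.W586.DC.ER P (tt N) (siz hN2 _ _) r K true (499 / 1000 - tt N q) (1 / 8) q
      (by have := (mem_pr.1 hq).2.2.2; linarith) (fun h => by simp at h)
    exact (le_abs_self _).trans h1
  -- the sum over `q`
  obtain ⟨hq1, hq2⟩ := hN₂ N hNN₂
  have hm1 : min (c₂ / 400) 1 ≤ c₂ / 400 := min_le_left _ _
  have hm2 : min (c₂ / 400) 1 ≤ 1 := min_le_right _ _
  have hq3 : ∑ q ∈ Q, X * (1 / (q : ℝ) *
        MM P (tt N) g K true (499 / 1000 - tt N q) (1 / 8)) ≤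
      X * (ε₁ * A0 * (2 * J + 363 * (c₂ / 400)) + ε₁ * A0 * c₂ / 32 * 3) := by
    calc ∑ q ∈ Q, X * (1 / (q : ℝ) * MM P (tt N) g K true (499 / 1000 - tt N q) (1 / 8))
        ≤ ∑ q ∈ Q, X * (ε₁ * A0 * (1 / (q : ℝ) * (1 / (499 / 1000 - tt N q))) +
            ε₁ * A0 * c₂ / 32 * (1 / (q : ℝ))) := by
          apply Finset.sum_le_sum
          intro q hq
          have h1 := hplus q hq
          have h4 : (0 : ℝ) ≤ 1 / (q : ℝ) := by positivity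
          refine mul_le_mul_of_nonneg_left ?_ hX
          have h2 := mul_le_mul_of_nonneg_left h1 h4
          linarith
      _ = X * (ε₁ * A0 * (∑ q ∈ Q, 1 / (q : ℝ) * (1 / (499 / 1000 - tt N q))) +
            ε₁ * A0 * c₂ / 32 * (∑ q ∈ Q, 1 / (q : ℝ))) := by
          rw [← Finset.mul_sum, Finset.sum_add_distrib, ← Finset.mul_sum, ← Finset.mul_sum]
      _ ≤ _ := by
          have h1 : 0 ≤ ε₁ * A0 := by positivity
          have h2 : 0 ≤ ε₁ * A0 * c₂ / 32 := by positivity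
          have h3 : ∑ q ∈ Q, 1 / (q : ℝ) * (1 / (499 / 1000 - tt N q)) ≤ 2 * J + 363 * (c₂ / 400) := by
            rw [hJ]
            linarith
          have h4 : ∑ q ∈ Q, 1 / (q : ℝ) ≤ 3 := by linarith
          gcongr
  have hmain : X * (ε₁ * A0 * Z - ε₁ * A0 * c₂ / 32) ≤
      X * (1 / ((1 : ℕ) : ℝ) * MM P (tt N) g K false (499 / 1000) (1 / 8)) := by
    apply mul_le_mul_of_nonneg_left _ hX
    norm_num
    linarith
  have hE1' := (abs_le.1 hE1).1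
  have hfin : 385 / 1000 * (A0 * ε₁ * X) ≤
      X * (ε₁ * A0 * Z - ε₁ * A0 * c₂ / 32) -
      1 / 2 * (X * (ε₁ * A0 * (2 * J + 363 * (c₂ / 400)) + ε₁ * A0 * c₂ / 32 * 3)) := by
    have h1 : X * (ε₁ * A0 * Z - ε₁ * A0 * c₂ / 32) -
      1 / 2 * (X * (ε₁ * A0 * (2 * J + 363 * (c₂ / 400)) + ε₁ * A0 * c₂ / 32 * 3)) =
        385 / 1000 * (A0 * ε₁ * X) + X * (ε₁ * A0 * c₂) * (1 - 1 / 32 - 363 / 800 - 3 / 64) := by
      rw [hc₂]
      ring
    rw [h1]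
    have h2 : 0 ≤ X * (ε₁ * A0 * c₂) := by positivity
    nlinarith
  linarith

/-- **the upper bound sieve** -/
theorem upC {A0 : ℝ} {F f : ℝ → ℝ} (hS : SF A0 F f) : ∀ ε₁ : ℝ, 0 < ε₁ → ε₁ ≤ 1 / 25 → ∃ N₀ : ℕ, ∀ N : ℕ, N₀ ≤ N →
      ∀ (Ω : Finset ℕ) (v : ℕ → ℝ) (m : ℕ → ℕ) (X : ℝ), (∀ n ∈ Ω, 0 ≤ v n) → 0 ≤ X →
      ∑ n ∈ Ω, v n * iu N ε₁ (1 / 6) (m n) ≤ 2005 / 1000 * (A0 * ε₁ * X) +
        ∑ d ∈ FC N ε₁, |(∑ n ∈ Ω, v n * ind (m n) d) - X * (1 / (d : ℝ))| := by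
  classical
  have hA0 := hS.pos
  intro ε₁ hε hε2
  obtain ⟨η, hη0, HM⟩ := Pool.Agent.W505.DC.MT Pool.Agent.W505.DC.MI A0 F f hS ε₁ (ε₁ * A0 * (1 / 2000)) ⌈1 / ε₁⌉₊ hε
    (by linarith) (by positivity)
  obtain ⟨N₁, hN₁⟩ := mer_of ε₁ (1 / 6) η hε (by norm_num) hη0
  refine ⟨max N₁ 2, ?_⟩
  intro N hN Ω v m X hv hX
  have hNN₁ : N₁ ≤ N := (le_max_left _ _).trans hN
  have hN2 : 2 ≤ N := (le_max_right _ _).trans hN
  set P := pr N ε₁ (1 / 6) with hP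
  set g : ℕ → ℝ := fun p => 1 / (p : ℝ) with hg
  set K := ⌈1 / ε₁⌉₊ with hK
  set r : ℕ → ℝ := fun e => (∑ n ∈ Ω, v n * ind (m n) e) - X * (1 / (e : ℝ)) with hr
  have hKε : 1 ≤ (K + 2) * ε₁ := by
    have h1 : 1 / ε₁ ≤ K := Nat.le_ceil _
    have h2 : 1 / ε₁ * ε₁ = 1 := by field_simp
    nlinarith
  have hg0 : ∀ p ∈ P, 0 ≤ g p := fun p _ => by rw [hg]; positivity
  have HM' := HM P (tt N) g (1 / 6) (by norm_num) hg0 (fun p hp => (mem_pr.1 hp).2.2.1)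
    (hN₁ N hNN₁) K le_rfl
  have hmain : MM P (tt N) g K true (499 / 1000) (1 / 6) ≤ 2005 / 1000 * (A0 * ε₁) := by
    have h1 := (HM' (499 / 1000) (1 / 6) (by linarith) (by linarith) le_rfl (by norm_num) (by norm_num)).1
    have h2 : ε₁ / (1 / 6) * F (499 / 1000 / (1 / 6)) = 1000 / 499 * (A0 * ε₁) := by
      rw [hS.F3 _ (by norm_num) (by norm_num)]
      ring
    rw [h2] at h1
    have h3 : 0 < A0 * ε₁ := by positivity
    nlinarith
  have e1 := Pool.Agent.Y822.F.LL_eq hN2 (ε₁ := ε₁) (w := 1 / 6) Ω v m X K true (499 / 1000) (1 / 6) 1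
    (fun p hp _ h => (mem_pr.1 hp).2.1.one_lt.ne' (Nat.dvd_one.1 h))
  have hpt : ∀ n ∈ Ω, v n * iu N ε₁ (1 / 6) (m n) ≤
      v n * LL P (tt N) (ind (m n)) K true (499 / 1000) (1 / 6) 1 := by
    intro n hn
    refine mul_le_mul_of_nonneg_left ?_ (hv n hn)
    have h1 := (Pool.Agent.W52.DC.PT P (tt N) (siz hN2 _ _) (m n) K (499 / 1000) (1 / 6) 1
      (fun p hp _ h => (mem_pr.1 hp).2.1.one_lt.ne' (Nat.dvd_one.1 h))).1
    refine le_trans ?_ h1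
    unfold iu
    by_cases h7 : ∀ p ∈ pr N ε₁ (1 / 6), ¬ p ∣ m n
    · rw [if_pos h7, if_pos ⟨one_dvd _, fun p hp _ => h7 p hp⟩]
    · rw [if_neg h7]
      split_ifs <;> norm_num
  have hsum := sum_le_sum hpt
  rw [e1] at hsum
  have hE : |LL P (tt N) r K true (499 / 1000) (1 / 6) 1| ≤ ∑ d ∈ FC N ε₁, |r d| :=
    (Pool.Agent.W586.DC.ER P (tt N) (siz hN2 _ _) r K true (499 / 1000) (1 / 6) 1 (by norm_num)
      (fun h => by simp at h)).trans (errC1 hN2 _ r)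
  have hE' := (le_abs_self _).trans hE
  have h9 := mul_le_mul_of_nonneg_left hmain hX
  have h10 : X * (1 / ((1 : ℕ) : ℝ) * MM P (tt N) g K true (499 / 1000) (1 / 6)) =
      X * MM P (tt N) g K true (499 / 1000) (1 / 6) := by
    norm_num
  rw [h10] at hsum
  calc ∑ n ∈ Ω, v n * iu N ε₁ (1 / 6) (m n) ≤ _ := hsum
    _ ≤ X * (2005 / 1000 * (A0 * ε₁)) + ∑ d ∈ FC N ε₁, |r d| := add_le_add h9 hE'
    _ = _ := by
      rw [show X * (2005 / 1000 * (A0 * ε₁)) = 2005 / 1000 * (A0 * ε₁ * X) by ring]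

end Siv

/-- **SIV**: the two sieves with explicit constants. -/
theorem sieveC : ∃ A0 : ℝ, 0 < A0 ∧ ∀ κ : ℝ, 0 < κ → κ ≤ 1 / 25 → ∃ N₀ : ℕ, ∀ N : ℕ, N₀ ≤ N →
    ∀ (Ω : Finset ℕ) (w : ℕ → ℝ) (m : ℕ → ℕ) (X : ℝ), (∀ n ∈ Ω, 0 ≤ w n) → 0 ≤ X →
    (385 / 1000 * (A0 * κ * X) - 2 * ∑ d ∈ FC N κ, |(∑ n ∈ Ω, w n * ind (m n) d) - X * (1 / (d : ℝ))| ≤
      ∑ n ∈ Ω, w n * Wk N κ (m n)) ∧
    (∑ n ∈ Ω, w n * iu N κ (1 / 6) (m n) ≤ 2005 / 1000 * (A0 * κ * X) +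
      ∑ d ∈ FC N κ, |(∑ n ∈ Ω, w n * ind (m n) d) - X * (1 / (d : ℝ))|) := by
  obtain ⟨A0, F, f, hS⟩ := Pool.Agent.W366.DC.SFX
  refine ⟨A0, hS.pos, fun κ hκ hκ2 => ?_⟩
  obtain ⟨N₁, h1⟩ := Siv.lowC hS κ hκ hκ2
  obtain ⟨N₂, h2⟩ := Siv.upC hS κ hκ hκ2
  exact ⟨max N₁ N₂, fun N hN Ω w m X hw hX =>
    ⟨h1 N ((le_max_left _ _).trans hN) Ω w m X hw hX,
     h2 N ((le_max_right _ _).trans hN) Ω w m X hw hX⟩⟩

end Pool.Agent.J4.H31.CH
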